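import Pool.Agent.H97.PRK.Targets

/-!
# DEF. The set of the least counterexamples is ordinal definable
-/

open Ordinal Cardinal Order Set
open scoped ZFSet

universe u

namespace Pool.Agent.H89.PRK

open _root_.HD HD.PRK

/-- an ordinal is the image of its cardinal -/
theorem def_reidx (t : Ordinal.{u}) : ∃ e : Ordinal.{u} → Ordinal.{u},
    ∀ b < t, ∃ a < t.card.ord, e a = b := by
  classical
  have h : #(Iio t.card.ord) = #(Iio t) := by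
    rw [Cardinal.mk_Iio_ordinal, Cardinal.mk_Iio_ordinal, Cardinal.card_ord]
  obtain ⟨φ⟩ := Cardinal.eq.1 h
  refine ⟨fun a => if ha : a < t.card.ord then (φ ⟨a, ha⟩ : Ordinal.{u}) else 0,
    fun b hb => ⟨φ.symm ⟨b, hb⟩, (φ.symm ⟨b, hb⟩).2, ?_⟩⟩
  have h1 : ((φ.symm ⟨b, hb⟩ : Iio t.card.ord) : Ordinal.{u}) < t.card.ord :=
    (φ.symm ⟨b, hb⟩).2
  simp only [h1, dif_pos, Subtype.coe_eta, Equiv.apply_symm_apply]

/-- being small, at the level of sets -/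
theorem def_few_iff (D : Cardinal.{u}) (Z : ZFSet.{u}) : (∃ ν < D, NF.Sz ν Z) ↔
    ∃ τ ∈ D.ord.toZFSet, ∃ g : ZFSet.{u},
      (∀ a x x', ZFSet.pair a x ∈ g → ZFSet.pair a x' ∈ g → x = x') ∧
      ∀ x ∈ Z, ∃ a ∈ τ, ZFSet.pair a x ∈ g := by
  constructor
  · rintro ⟨ν, hν, h⟩
    obtain ⟨g, h1, h2⟩ := (NF.Sz_iff ν Z).1 h
    exact ⟨_, toZFSet_mem_toZFSet_iff.2 (Cardinal.ord_lt_ord.2 hν), g, h1, h2⟩
  · rintro ⟨τ, hτ, g, h1, h2⟩
    obtain ⟨t, ht, rfl⟩ := mem_toZFSet_iff.1 hτ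
    refine ⟨t.card, Cardinal.lt_ord.1 ht, ?_⟩
    obtain ⟨e, he⟩ := def_reidx t
    classical
    refine ⟨fun a => if h : ∃ x, ZFSet.pair (e a).toZFSet x ∈ g then Classical.choose h else ∅,
      fun x hx => ?_⟩
    obtain ⟨a, ha, hp⟩ := h2 x hx
    obtain ⟨a, ha', rfl⟩ := mem_toZFSet_iff.1 ha
    obtain ⟨b, hb, rfl⟩ := he a ha'
    refine ⟨b, hb, ?_⟩
    have hex : ∃ x, ZFSet.pair (e b).toZFSet x ∈ g := ⟨x, hp⟩
    simp only [hex, dif_pos]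
    exact h1 _ _ _ hp (Classical.choose_spec hex)

theorem def_dz_few (D : Cardinal.{u}) (i : ℕ) : DZ.{u} fun v => ∃ ν < D, NF.Sz ν (v i) := by
  refine DZ.congr (P := fun v => ∃ τ ∈ D.ord.toZFSet, ∃ g : ZFSet.{u},
      (∀ a x x', ZFSet.pair a x ∈ g → ZFSet.pair a x' ∈ g → x = x') ∧
      ∀ x ∈ v i, ∃ a ∈ τ, ZFSet.pair a x ∈ g) ?_ fun v => def_few_iff D (v i)
  refine DZ.od (R := fun b v => ∃ τ ∈ b, ∃ g : ZFSet.{u},
      (∀ a x x', ZFSet.pair a x ∈ g → ZFSet.pair a x' ∈ g → x = x') ∧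
      ∀ x ∈ v i, ∃ a ∈ τ, ZFSet.pair a x ∈ g) (OD.ordinal D.ord) (DZ.exMem 0 (DZ.ex
        (DZ.and (DZ.all (DZ.all (DZ.all (((loc_pmem 2 1 3).dz.imp
          ((loc_pmem 2 0 3).dz.imp (DZ.eq 1 0))))))) (DZ.allMem _ (DZ.exMem 2
            (loc_pmem 0 1 2).dz)))))

/-- `B` is the only set which is related to `x` by the set with code `c` -/
def Qc (en : Ordinal.{u} → ZFSet.{u}) (x c B : ZFSet.{u}) : Prop :=
  c.IsOrdinal ∧ ∀ z, ZFSet.pair x z ∈ en c.rank ↔ z = B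

/-- a counterexample, without definability -/
def Bd (D : Cardinal.{u}) (x B : ZFSet.{u}) : Prop :=
  (∃ z, z ∈ x) ∧ (∀ z ∈ x, ∀ y ∈ B, y ∈ z) ∧ ¬ ∃ Z, OD Z ∧ B ∈ Z ∧ ∃ ν < D, NF.Sz ν Z

theorem def_dz_Qc {en : Ordinal.{u} → ZFSet.{u}} (h : EN en) (i j k : ℕ) :
    DZ.{u} fun v => Qc en (v i) (v j) (v k) :=
  NF.dz_en' h (R := fun y v => ∀ z, ZFSet.pair (v i) z ∈ y ↔ z = v k) j
    (DZ.all (R := fun z v => ZFSet.pair (v (i + 1)) z ∈ v 0 ↔ z = v (k + 1))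
      ((loc_pmem (i + 2) 0 1).dz.iff (DZ.eq 0 (k + 2))))

theorem def_dz_Bd {en : Ordinal.{u} → ZFSet.{u}} (h : EN en) (D : Cardinal.{u}) (i k : ℕ) :
    DZ.{u} fun v => Bd D (v i) (v k) :=
  (DZ.ex (R := fun z v => z ∈ v i) (DZ.mem 0 (i + 1))).and
    ((DZ.allMem (R := fun z v => ∀ y ∈ v k, y ∈ z) i
      (DZ.allMem (R := fun y v => y ∈ v 0) (k + 1) (DZ.mem 0 1))).and
      (DZ.ex (R := fun Z v => OD Z ∧ v k ∈ Z ∧ ∃ ν < D, NF.Sz ν Z)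
        ((h.dzOD 0).and ((DZ.mem (k + 1) 0).and (def_dz_few D 0)))).not)

/-- `a` is an element of the first counterexample at `x` -/
def Fp (en : Ordinal.{u} → ZFSet.{u}) (D : Cardinal.{u}) (x a : ZFSet.{u}) : Prop :=
  ∃ c B, Qc en x c B ∧ Bd D x B ∧ a ∈ B ∧ ∀ c' ∈ c, ∀ B', ¬ (Qc en x c' B' ∧ Bd D x B')

theorem def_dz_Fp {en : Ordinal.{u} → ZFSet.{u}} (h : EN en) (D : Cardinal.{u}) (i j : ℕ) :
    DZ.{u} fun v => Fp en D (v i) (v j) :=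
  DZ.ex (R := fun c v => ∃ B, Qc en (v i) c B ∧ Bd D (v i) B ∧ v j ∈ B ∧
      ∀ c' ∈ c, ∀ B', ¬ (Qc en (v i) c' B' ∧ Bd D (v i) B'))
    (DZ.ex (R := fun B v => Qc en (v (i + 1)) (v 0) B ∧ Bd D (v (i + 1)) B ∧ v (j + 1) ∈ B ∧
      ∀ c' ∈ v 0, ∀ B', ¬ (Qc en (v (i + 1)) c' B' ∧ Bd D (v (i + 1)) B'))
    ((def_dz_Qc h (i + 2) 1 0).and ((def_dz_Bd h D (i + 2) 0).and ((DZ.mem (j + 2) 0).and
      (DZ.allMem (R := fun c' v => ∀ B', ¬ (Qc en (v (i + 2)) c' B' ∧ Bd D (v (i + 2)) B')) 1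
        (DZ.all (R := fun B' v => ¬ (Qc en (v (i + 3)) (v 0) B' ∧ Bd D (v (i + 3)) B'))
          ((def_dz_Qc h (i + 4) 1 0).and (def_dz_Bd h D (i + 4) 0)).not))))))

theorem pf_DEF : T_DEF.{u} := by
  intro D K
  obtain ⟨en, hen⟩ := HD.All.en.{u}
  have hβ : Gd (K.ord + ω + ω) := by
    refine ⟨Ordinal.isSuccLimit_add _ Ordinal.isSuccLimit_omega0, ?_⟩
    calc (ω : Ordinal.{u}) ≤ K.ord + ω := le_add_self
      _ < K.ord + ω + ω := by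
        have h1 : (0 : Ordinal.{u}) < ω := Ordinal.omega0_pos
        exact lt_add_of_pos_right _ h1
  have hKβ : K.ord < K.ord + ω + ω := by
    have h1 : (0 : Ordinal.{u}) < ω := Ordinal.omega0_pos
    exact (lt_add_of_pos_right _ h1).trans_le le_self_add
  set F : ZFSet.{u} := ZFSet.sep (fun z => ∃ x a, z = ZFSet.pair x a ∧ Fp en D x a)
    (V_ (K.ord + ω + ω)) with hF
  have hmem : ∀ x a : ZFSet.{u}, ZFSet.pair x a ∈ F → Fp en D x a := by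
    intro x a h
    rw [hF, ZFSet.mem_sep] at h
    obtain ⟨-, x', a', h1, h2⟩ := h
    obtain ⟨rfl, rfl⟩ := ZFSet.pair_injective h1
    exact h2
  refine ⟨F, ?_, ?_, ?_⟩
  · refine Pool.Agent.H45.NF.od_sep (NF.od_V _) ?_
    exact DZ.ex (R := fun x v => ∃ a, v 0 = ZFSet.pair x a ∧ Fp en D x a)
      (DZ.ex (R := fun a v => v 1 = ZFSet.pair (v 0) a ∧ Fp en D (v 0) a)
        ((loc_pair 2 1 0).dz.and (def_dz_Fp hen D 1 0)))
  · intro x a b ha hb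
    obtain ⟨c, B, -, hB, haB, -⟩ := hmem _ _ ha
    exact toZFSet_mem_toZFSet_iff.1 (hB.2.1 _ hb _ haB)
  · intro x hx B hB
    obtain ⟨⟨z0, hz0⟩, hBz, hOD, hno⟩ := hB
    -- there is a counterexample with a code
    have hex : ∃ c : Ordinal.{u}, ∃ B', Qc en x c.toZFSet B' ∧ Bd D x B' := by
      obtain ⟨R, hR, hRB⟩ := (Pool.Agent.H45.NF.pf_pa x B).1 hOD
      obtain ⟨c, hc⟩ := (hen.od R).1 hR
      refine ⟨c, B, ⟨ZFSet.isOrdinal_toZFSet c, ?_⟩, ⟨z0, hz0⟩, fun z hz y hy => hBz z hz hy,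
        hno⟩
      rw [rank_toZFSet, hc]
      exact hRB
    set S : Set Ordinal.{u} := {c | ∃ B', Qc en x c.toZFSet B' ∧ Bd D x B'} with hS
    have hne : S.Nonempty := hex
    obtain ⟨B0, hQ0, hB0⟩ := csInf_mem hne
    set c0 : Ordinal.{u} := sInf S with hc0
    have hmin : ∀ c' ∈ c0.toZFSet, ∀ B', ¬ (Qc en x c' B' ∧ Bd D x B') := by
      intro c' hc' B' h
      obtain ⟨c', hc'', rfl⟩ := mem_toZFSet_iff.1 hc'
      exact absurd hc'' (not_lt.2 (csInf_le' (show c' ∈ S from ⟨B', h⟩)))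
    have hxV : x ∈ V_ (K.ord + ω + ω) := mem_V_of_sub hx (Gd.ord.2 hKβ)
    have hsec : ∀ a : Ordinal.{u}, a < K.ord → (a ∈ sec F x ↔ a.toZFSet ∈ B0) := by
      intro a haK
      constructor
      · intro h
        obtain ⟨c, B', hQ, hB', haB, hm⟩ := hmem _ _ h
        obtain ⟨c, rfl⟩ := ord_of hQ.1
        have hcc : c = c0 := by
          refine le_antisymm ?_ (csInf_le' (show c ∈ S from ⟨B', hQ, hB'⟩))
          by_contra hlt
          exact hm c0.toZFSet (toZFSet_mem_toZFSet_iff.2 (not_le.1 hlt)) B0 ⟨hQ0, hB0⟩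
        rw [hcc] at hQ
        have : B0 = B' := (hQ.2 B0).1 ((hQ0.2 B0).2 rfl)
        rw [this]
        exact haB
      · intro h
        show ZFSet.pair x a.toZFSet ∈ F
        rw [hF, ZFSet.mem_sep]
        exact ⟨hβ.pair hxV (Gd.ord.2 (haK.trans hKβ)), x, a.toZFSet, rfl, c0.toZFSet, B0, hQ0,
          hB0, h, hmin⟩
    have hos : os K.ord (sec F x) = B0 := by
      ext z
      rw [mem_os]
      constructor
      · rintro ⟨a, ha, has, rfl⟩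
        exact (hsec a ha).1 has
      · intro hz
        obtain ⟨b, hb, rfl⟩ := mem_toZFSet_iff.1 (hx hz0)
        obtain ⟨a, ha, rfl⟩ := mem_toZFSet_iff.1 (hB0.2.1 _ hz0 _ hz)
        exact ⟨a, ha.trans hb, (hsec a (ha.trans hb)).2 hz, rfl⟩
    rw [hos]
    refine ⟨⟨z0, hz0⟩, fun z hz y hy => hB0.2.1 z hz y hy, ?_, hB0.2.2⟩
    refine (Pool.Agent.H45.NF.pf_pa x B0).2 ⟨en c0, (hen.od _).2 ⟨c0, rfl⟩, ?_⟩
    have := hQ0.2
    rwa [rank_toZFSet] at this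

end Pool.Agent.H89.PRK
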